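import Pool.Agent.Helper47_LDP.Pts

/-! MAIN0 and the common part of MAIN0, MAIN1. -/

namespace Pool.Agent.LDP.H47

open Polynomial
open scoped Polynomial.Bivariate

theorem natDegree_of_mem_V {ρ a b : ℕ} {L : Type*} [CommRing L] {g : L[X][Y]}
    (hg : g ∈ V ρ L a b) : g.natDegree ≤ b := by
  rw [natDegree_le_iff_coeff_eq_zero]
  intro j hj
  by_contra hne
  obtain ⟨i, hi⟩ : ∃ i, (g.coeff j).coeff i ≠ 0 := by
    by_contra hall
    push Not at hall
    exact hne (Polynomial.ext fun i => by rw [hall i, coeff_zero])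
  have := (hg i j hi).1
  omega

theorem V_mono {ρ a b a' b' : ℕ} {L : Type*} [CommRing L] {g : L[X][Y]}
    (hg : g ∈ V ρ L a b) (ha : a ≤ a') (hb : b ≤ b') : g ∈ V ρ L a' b' := by
  intro i j hij
  have := hg i j hij
  exact ⟨this.1.trans hb, this.2.trans ha⟩

theorem V_bmap {ρ a b : ℕ} {A B : Type*} [CommRing A] [CommRing B] (φ : A →+* B) {g : A[X][Y]}
    (hg : g ∈ V ρ A a b) : bmap φ g ∈ V ρ B a b := by
  intro i j hij
  apply hg i j
  intro h0
  apply hij
  unfold bmap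
  rw [coeff_map, coe_mapRingHom, coeff_map, h0, map_zero]

theorem Good_bmap {ρ d : ℕ} {A B : Type*} [CommRing A] [CommRing B] (φ : A →+* B) {g : A[X][Y]}
    (hg : Good ρ d g) : Good ρ d (bmap φ g) := by
  refine ⟨V_bmap φ hg.mem, ?_⟩
  unfold bmap
  rw [coeff_map, coe_mapRingHom, coeff_map, hg.corner, map_one]

theorem Good_fs {ρ d : ℕ} (h : (ρ = 0 ∧ 3 ≤ d) ∨ (ρ = 1 ∧ d = 2)) {L : Type*} [CommRing L]
    (lam : L) : Good ρ d (fs ρ d lam) := by
  have hco : ∀ i j, ((fs ρ d lam).coeff j).coeff i =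
      (if j = 0 then ((if i = (1 + ρ) * d then 1 else 0) + (if i = 1 then 1 else 0) -
        (if i = 0 then lam else 0)) else 0) + (if j = d - 1 ∧ i = 0 then 1 else 0) +
        (if j = d ∧ i = d then 1 else 0) := by
    intro i j
    unfold fs
    rw [coeff_add, coeff_add, coeff_add, coeff_add, coeff_C, coeff_X_pow, coeff_C_mul,
      coeff_X_pow]
    have e1 : ((if j = 0 then (X ^ ((1 + ρ) * d) + X - C lam : L[X]) else 0)).coeff i =
        if j = 0 then ((if i = (1 + ρ) * d then 1 else 0) + (if i = 1 then 1 else 0) -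
        (if i = 0 then lam else 0)) else 0 := by
      by_cases hj : j = 0
      · rw [if_pos hj, if_pos hj, coeff_sub, coeff_add, coeff_X_pow, coeff_X, coeff_C]
        congr 2
        by_cases h1 : i = 1
        · rw [if_pos h1, if_pos h1.symm]
        · rw [if_neg h1, if_neg (fun h => h1 h.symm)]
      · rw [if_neg hj, if_neg hj, coeff_zero]
    have e2 : ((if j = d - 1 then (1 : L[X]) else 0)).coeff i =
        if j = d - 1 ∧ i = 0 then 1 else 0 := by
      by_cases hj : j = d - 1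
      · rw [if_pos hj, coeff_one]
        by_cases h1 : i = 0
        · rw [if_pos h1, if_pos ⟨hj, h1⟩]
        · rw [if_neg h1, if_neg (fun h => h1 h.2)]
      · rw [if_neg hj, coeff_zero, if_neg (fun h => hj h.1)]
    have e3 : ((X : L[X]) ^ d * (if j = d then (1 : L[X]) else 0)).coeff i =
        if j = d ∧ i = d then 1 else 0 := by
      by_cases hj : j = d
      · rw [if_pos hj, mul_one, coeff_X_pow]
        by_cases h1 : i = d
        · rw [if_pos h1, if_pos ⟨hj, h1⟩]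
        · rw [if_neg h1, if_neg (fun h => h1 h.2)]
      · rw [if_neg hj, mul_zero, coeff_zero, if_neg (fun h => hj h.1)]
    rw [e1, e2, e3]
  constructor
  · intro i j hij
    rw [hco] at hij
    by_cases h1 : j = d ∧ i = d
    · rw [h1.1, h1.2]
      exact ⟨le_rfl, by nlinarith⟩
    · by_cases h2 : j = d - 1 ∧ i = 0
      · rw [h2.1, h2.2]
        refine ⟨by omega, ?_⟩
        rcases h with ⟨rfl, h⟩ | ⟨rfl, rfl⟩ <;> omega
      · by_cases h3 : j = 0
        · refine ⟨by omega, ?_⟩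
          rw [h3] at hij ⊢
          by_cases h4 : i = (1 + ρ) * d
          · omega
          · by_cases h5 : i = 1
            · rw [h5]
              rcases h with ⟨rfl, h⟩ | ⟨rfl, rfl⟩ <;> omega
            · by_cases h6 : i = 0
              · omega
              · exfalso
                apply hij
                rw [if_pos rfl, if_neg h4, if_neg h5, if_neg h6, if_neg (by tauto),
                  if_neg (by rintro ⟨h7, -⟩; omega)]
                simp
        · exfalso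
          apply hij
          rw [if_neg h3, if_neg h2, if_neg h1]
          simp
  · rw [hco, if_neg (by omega), if_neg (by omega), if_pos ⟨rfl, rfl⟩, zero_add, zero_add]

/-- the point and its properties -/
theorem setup (hSpe : SpeStmt) (hSem : SemStmt) (hGen : GenStmt) (hRir : RirStmt) (hPts : PtsStmt)
    (hIdl : IdlStmt) (ρ n d m : ℕ) (hpar : Par ρ d m) (hn : 2 + ρ ≤ n) :
    Good ρ d (fK ρ n d) ∧ Sep ρ m d (fK ρ n d) ∧
    FK n d ∈ MvPolynomial.homogeneousSubmodule (Fin (n + 2)) (KK n d) d ∧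
    ∃ (E : Type) (_ : Field E) (_ : Algebra (KK n d) E) (s t : E)
      (P : Ideal (MvPolynomial (Fin (n + 2)) (KK n d))),
      Module.Finite (KK n d) E ∧ Module.finrank (KK n d) E = d * (m + d - 1) ∧
      aeval s (RR m d (fK ρ n d)) = 0 ∧
      (∀ e : E, ∃ p : (KK n d)[X], aeval s p = e) ∧
      (∀ (b : ℕ) (G : (KK n d)[X][Y]), G.natDegree ≤ b →
        (ev s t G = 0 ↔ RR m d (fK ρ n d) ∣ num m d b (fK ρ n d) G)) ∧
      ev s t (fK ρ n d) = 0 ∧
      IsPt (d * (m + d - 1)) P ∧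
      (∀ (u : ℕ), ∀ h ∈ MvPolynomial.homogeneousSubmodule (Fin (n + 2)) (KK n d) u,
        (h ∈ P ↔ ev s t (res ρ n (KK n d) h) = 0)) ∧
      FK n d ∈ P := by
  have hρd : (ρ = 0 ∧ 3 ≤ d) ∨ (ρ = 1 ∧ d = 2) := by
    rcases hpar with ⟨h1, h2, h3⟩ | ⟨h1, h2, h3⟩
    · exact Or.inl ⟨h1, h2⟩
    · exact Or.inr ⟨h1, h2⟩
  have hρ : ρ ≤ 1 := by rcases hρd with ⟨h, -⟩ | ⟨h, -⟩ <;> omega
  obtain ⟨hgA, hbm, hhom, hspec⟩ := hGen ρ n d hρd hn
  have hgK : Good ρ d (fK ρ n d) := by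
    rw [← hbm]; exact Good_bmap _ hgA
  have hsep : Sep ρ m d (fK ρ n d) := by
    obtain ⟨φ, hφ⟩ := hspec (FractionRing ℂ[X])
      (fs ρ d (algebraMap ℂ[X] (FractionRing ℂ[X]) X)) (Good_fs hρd _)
    rw [← hbm]
    refine hSem ρ d m (AA n d) (KK n d) (FractionRing ℂ[X]) φ (fA ρ n d) hpar hgA ?_
    rw [hφ]
    exact hSpe ρ d m hpar
  refine ⟨hgK, hsep, hhom, ?_⟩
  obtain ⟨E, _, _, s, t, hfin, hrank, hs, hgen, hnum, hev⟩ :=
    hPts ρ d m (KK n d) (fK ρ n d) hpar hgK (hRir ρ n d m hpar hn)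
  obtain ⟨P, hP, hmem⟩ := hIdl ρ n (KK n d) E s t hρ hn hgen
  rw [hrank] at hP
  refine ⟨E, inferInstance, inferInstance, s, t, P, hfin, hrank, hs, hgen, hnum, hev, hP, hmem, ?_⟩
  rw [hmem d _ hhom]
  exact hev

/-- the common part: `Q` contains the equations of `T` -/
theorem common (hCur : CurStmt) (hChi : ChiStmt) (hPri : PriStmt) (hRe2 : Re2Stmt)
    (ρ n d m : ℕ) (hpar : Par ρ d m) (hn : 2 + ρ ≤ n) (K E : Type) [Field K] [Field E]
    [Algebra K E] (F : MvPolynomial (Fin (n + 2)) K)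
    (hF : F ∈ MvPolynomial.homogeneousSubmodule (Fin (n + 2)) K d)
    (hsep : Sep ρ m d (res ρ n K F)) (s t : E)
    (hnum : ∀ (b : ℕ) (G : K[X][Y]), G.natDegree ≤ b →
      (ev s t G = 0 ↔ RR m d (res ρ n K F) ∣ num m d b (res ρ n K F) G))
    (hev : ev s t (res ρ n K F) = 0)
    (P Q : Ideal (MvPolynomial (Fin (n + 2)) K))
    (hP : ∀ (u : ℕ), ∀ h ∈ MvPolynomial.homogeneousSubmodule (Fin (n + 2)) K u,
      (h ∈ P ↔ ev s t (res ρ n K h) = 0))
    (hQ : IsCrv (m + d - 1) Q) (hQP : Q ≤ P)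
    (hlin : ∀ i : Fin (n + 2), 4 + ρ ≤ i.1 → MvPolynomial.X i ∈ Q)
    (hq1 : ∀ i₀ i₁ i₂ i₃ : Fin (n + 2), i₀.1 = 0 → i₁.1 = 1 → i₂.1 = 2 → i₃.1 = 3 →
      MvPolynomial.X i₀ * MvPolynomial.X i₃ - MvPolynomial.X i₁ * MvPolynomial.X i₂ ∈ Q)
    (hq2 : ρ = 1 → ∀ i₁ i₃ i₄ : Fin (n + 2), i₁.1 = 1 → i₃.1 = 3 → i₄.1 = 4 →
      MvPolynomial.X i₄ * MvPolynomial.X i₃ - MvPolynomial.X i₁ ^ 2 ∈ Q) : F ∈ Q := by
  have hρ : ρ ≤ 1 := by
    rcases hpar with ⟨h, -⟩ | ⟨h, -⟩ <;> omega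
  have hk : 1 ≤ m + d - 1 := by
    rcases hpar with ⟨-, h, h'⟩ | ⟨-, h, h'⟩ <;> omega
  obtain ⟨hQpr, hQh, c, T, hT⟩ := hQ
  have hx3 : ∀ i : Fin (n + 2), i.1 = 3 → MvPolynomial.X i ∉ Q := by
    intro i hi hmem
    have h1 := (hP 1 (MvPolynomial.X i) (MvPolynomial.isHomogeneous_X K i)).1 (hQP hmem)
    unfold res at h1
    rw [MvPolynomial.aeval_X] at h1
    unfold th at h1
    rw [if_neg (by omega), if_neg (by omega), if_neg (by omega), if_pos hi] at h1
    unfold ev at h1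
    rw [Polynomial.map_one, evalEval_one] at h1
    exact one_ne_zero h1
  obtain ⟨J, hJp, hmem⟩ := hCur ρ n K Q hρ hn hQpr hx3 hlin hq1 hq2
  have hlinJ : ∀ t ≥ T, (hJ ρ J t : ℤ) = (m + d - 1 : ℕ) * t + c := by
    intro t ht
    rw [← hChi ρ n K Q J t hρ hn (hmem t)]
    exact hT t ht
  obtain ⟨a, b, g, hg0, hab, hgV, hJg⟩ := hPri ρ (m + d - 1) T c K J hρ hk hJp hlinJ
  have hgV' : g ∈ V ρ K ((1 + ρ) * (a + b)) (a + b) :=
    V_mono hgV (by nlinarith) (by omega)
  obtain ⟨h, hh, hres⟩ := hRe2 ρ n (a + b) K g hρ hn hgV'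
  have hgJ : g ∈ J := by rw [hJg]; exact Ideal.mem_span_singleton_self g
  have hhQ : h ∈ Q := by rw [hmem _ h hh, hres]; exact hgJ
  have hgev : ev s t g = 0 := by
    rw [← hres]
    exact (hP _ h hh).1 (hQP hhQ)
  have hdvd : res ρ n K F ∣ g :=
    hsep a b g hab.le hgV ((hnum b g (natDegree_of_mem_V hgV)).1 hgev)
  have hgprime : Prime g := (Ideal.span_singleton_prime hg0).1 (hJg ▸ hJp)
  obtain ⟨u, hu⟩ := hdvd
  have hunit : ¬ IsUnit (res ρ n K F) := by
    intro hU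
    have h1 := hU.map ((evalEvalRingHom s t).comp
      (mapRingHom (mapRingHom (algebraMap K E))))
    have h2 : ((evalEvalRingHom s t).comp
      (mapRingHom (mapRingHom (algebraMap K E)))) (res ρ n K F) = ev s t (res ρ n K F) := rfl
    rw [h2, hev] at h1
    exact not_isUnit_zero h1
  rw [hmem d F hF, hJg, Ideal.mem_span_singleton]
  rcases hgprime.irreducible.isUnit_or_isUnit hu with h1 | h1
  · exact absurd h1 hunit
  · obtain ⟨v, hv⟩ := h1.exists_right_inv
    refine ⟨v, ?_⟩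
    rw [hu, mul_assoc, hv, mul_one]

/-- forms of degree `< d` through the point lie on the curve -/
theorem low (hHil : HilStmt) {N : ℕ} {K : Type} [Field K] {P Q : Ideal (MvPolynomial (Fin N) K)}
    {k d : ℕ} (hk : 1 ≤ k) (hP : IsPt (d * k) P) (hQ : IsCrv k Q) (hQP : Q ≤ P) {e : ℕ}
    (he : e < d) {h : MvPolynomial (Fin N) K}
    (hh : h ∈ MvPolynomial.homogeneousSubmodule (Fin N) K e) (hhP : h ∈ P) : h ∈ Q := by
  by_contra hhQ
  obtain ⟨hQ1, hQ2, c, T, hT⟩ := hQ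
  obtain ⟨hP1, hP2, T', hT'⟩ := hP
  have := (hHil N K P Q k (d * k) e (max T T') c hQ1 hQ2 hP2 hQP
    (fun t ht => hT t (le_trans (le_max_left _ _) ht))
    (fun t ht => hT' t (le_trans (le_max_right _ _) ht)) h hh hhP hhQ).1
  have h2 : k * e < d * k := by nlinarith
  omega

/-- values of the coordinates at the point -/
theorem ev_res_eq_zero {ρ n : ℕ} {K E : Type} [Field K] [Field E] [Algebra K E] (s t : E)
    {h : MvPolynomial (Fin (n + 2)) K} (hh : res ρ n K h = 0) : ev s t (res ρ n K h) = 0 := by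
  rw [hh]
  unfold ev
  rw [Polynomial.map_zero, evalEval_zero]

theorem res_X (ρ n : ℕ) (K : Type) [Field K] (i : Fin (n + 2)) :
    res ρ n K (MvPolynomial.X i) = th ρ K i.1 := by
  unfold res
  rw [MvPolynomial.aeval_X]

theorem th_zero (ρ : ℕ) (K : Type) [Field K] {i : ℕ} (hi : i = 0) : th ρ K i = C X * Y := by
  unfold th; rw [if_pos hi]

theorem th_one (ρ : ℕ) (K : Type) [Field K] {i : ℕ} (hi : i = 1) : th ρ K i = C X := by
  unfold th; rw [if_neg (by omega), if_pos hi]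

theorem th_two (ρ : ℕ) (K : Type) [Field K] {i : ℕ} (hi : i = 2) :
    th ρ K i = (Y : K[X][Y]) := by
  unfold th; rw [if_neg (by omega), if_neg (by omega), if_pos hi]

theorem th_three (ρ : ℕ) (K : Type) [Field K] {i : ℕ} (hi : i = 3) : th ρ K i = 1 := by
  unfold th; rw [if_neg (by omega), if_neg (by omega), if_neg (by omega), if_pos hi]

theorem th_four (K : Type) [Field K] {i : ℕ} (hi : i = 4) : th 1 K i = C (X ^ 2) := by
  unfold th
  rw [if_neg (by omega), if_neg (by omega), if_neg (by omega), if_neg (by omega),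
    if_pos ⟨hi, rfl⟩]

theorem th_large (ρ : ℕ) (hρ : ρ ≤ 1) (K : Type) [Field K] {i : ℕ} (hi : 4 + ρ ≤ i) :
    th ρ K i = 0 := by
  unfold th
  rw [if_neg (by omega), if_neg (by omega), if_neg (by omega), if_neg (by omega),
    if_neg (by omega)]

theorem q_homog {n : ℕ} {K : Type} [Field K] (i j k l : Fin (n + 2)) :
    (MvPolynomial.X i * MvPolynomial.X j - MvPolynomial.X k * MvPolynomial.X l :
      MvPolynomial (Fin (n + 2)) K) ∈ MvPolynomial.homogeneousSubmodule (Fin (n + 2)) K 2 :=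
  Submodule.sub_mem _
    ((MvPolynomial.isHomogeneous_X K i).mul (MvPolynomial.isHomogeneous_X K j))
    ((MvPolynomial.isHomogeneous_X K k).mul (MvPolynomial.isHomogeneous_X K l))

/-- MAIN0 -/
theorem main0 (hSpe : SpeStmt) (hSem : SemStmt) (hGen : GenStmt) (hRir : RirStmt)
    (hPts : PtsStmt) (hIdl : IdlStmt) (hHil : HilStmt) (hCur : CurStmt) (hChi : ChiStmt)
    (hPri : PriStmt) (hRe2 : Re2Stmt) : Main0 := by
  intro n d k hn hd hk
  have hpar : Par 0 d (k - d + 1) := Or.inl ⟨rfl, hd, by omega⟩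
  have hkm : k - d + 1 + d - 1 = k := by omega
  obtain ⟨-, hsep, hhom, E, _, _, s, t, P, hfin, hrank, hs, hgen, hnum, hev, hP, hmem, hFP⟩ :=
    setup hSpe hSem hGen hRir hPts hIdl 0 n d (k - d + 1) hpar (by omega)
  rw [hkm] at hP
  refine ⟨P, by rw [mul_comm]; exact hP, hFP, ?_⟩
  intro Q hQ hQP
  have hk1 : 1 ≤ k := by omega
  refine common hCur hChi hPri hRe2 0 n d (k - d + 1) hpar (by omega) (KK n d) E (FK n d) hhom
    hsep s t hnum hev P Q hmem (by rw [hkm]; exact hQ) hQP ?_ ?_ ?_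
  · intro i hi
    have h1 : (MvPolynomial.X i : MvPolynomial (Fin (n + 2)) (KK n d)) ∈
        MvPolynomial.homogeneousSubmodule (Fin (n + 2)) (KK n d) 1 :=
      MvPolynomial.isHomogeneous_X _ i
    refine low hHil hk1 hP hQ hQP (by omega) h1 ?_
    rw [hmem 1 _ h1]
    apply ev_res_eq_zero
    rw [res_X, th_large 0 (by omega) _ hi]
  · intro i₀ i₁ i₂ i₃ h0 h1 h2 h3
    refine low hHil hk1 hP hQ hQP (by omega) (q_homog i₀ i₃ i₁ i₂) ?_
    rw [hmem 2 _ (q_homog i₀ i₃ i₁ i₂)]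
    apply ev_res_eq_zero
    rw [map_sub, map_mul, map_mul, res_X, res_X, res_X, res_X, th_zero 0 _ h0, th_one 0 _ h1,
      th_two 0 _ h2, th_three 0 _ h3]
    ring
  · intro h
    exact absurd h (by omega)

end Pool.Agent.LDP.H47
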