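import Pool.Agent.Helper38_LDP.Stmts

/-! CUR: prime ideals containing the equations of `T`. -/

namespace Pool.Agent.LDP.H47

open Polynomial
open scoped Polynomial.Bivariate

theorem aeval_scale {N t : ℕ} {K F : Type} [Field K] [Field F] [Algebra K F]
    {h : MvPolynomial (Fin N) K} (hh : h ∈ MvPolynomial.homogeneousSubmodule (Fin N) K t)
    (c : F) (a : Fin N → F) :
    MvPolynomial.aeval (fun i => c * a i) h = c ^ t * MvPolynomial.aeval a h := by
  rw [MvPolynomial.aeval_def, MvPolynomial.aeval_def, MvPolynomial.eval₂_eq',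
    MvPolynomial.eval₂_eq', Finset.mul_sum]
  refine Finset.sum_congr rfl fun d hd => ?_
  have h1 : d.degree = t := by
    have := hh (MvPolynomial.mem_support_iff.1 hd)
    rw [← this, Finsupp.degree_eq_weight_one]
    rfl
  have h2 : ∑ i, d i = t := by
    rw [← h1, Finsupp.degree_eq_sum]
  have h3 : ∏ i, (c * a i) ^ d i = c ^ t * ∏ i, a i ^ d i := by
    simp only [mul_pow]
    rw [Finset.prod_mul_distrib, Finset.prod_pow_eq_pow_sum, h2]
  rw [h3]
  ring

theorem cur : CurStmt := by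
  intro ρ n K _ Q hρ hn hQ h3 hlin h03 h43
  have : Q.IsPrime := hQ
  let D := MvPolynomial (Fin (n + 2)) K ⧸ Q
  let F := FractionRing D
  let π : MvPolynomial (Fin (n + 2)) K →ₐ[K] F :=
    (IsScalarTower.toAlgHom K D F).comp (Ideal.Quotient.mkₐ K Q)
  have hπ : ∀ h, π h = 0 ↔ h ∈ Q := by
    intro h
    change algebraMap D F (Ideal.Quotient.mk Q h) = 0 ↔ _
    rw [← Ideal.Quotient.eq_zero_iff_mem]
    constructor
    · intro h0
      exact (IsFractionRing.injective D F) (by rw [h0, map_zero])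
    · intro h0; rw [h0, map_zero]
  let a : Fin (n + 2) → F := fun i => π (MvPolynomial.X i)
  have hπa : ∀ h, MvPolynomial.aeval a h = π h := by
    intro h
    have : MvPolynomial.aeval a = π := by
      apply MvPolynomial.algHom_ext
      intro i
      rw [MvPolynomial.aeval_X]
    rw [this]
  have i0 : (0 : ℕ) < n + 2 := by omega
  have i1 : (1 : ℕ) < n + 2 := by omega
  have i2 : (2 : ℕ) < n + 2 := by omega
  have i3 : (3 : ℕ) < n + 2 := by omega
  set a3 : F := a ⟨3, i3⟩ with ha3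
  have ha30 : a3 ≠ 0 := by
    intro h0
    exact h3 ⟨3, i3⟩ rfl ((hπ _).1 h0)
  let u : F := a3⁻¹ * a ⟨1, i1⟩
  let v : F := a3⁻¹ * a ⟨2, i2⟩
  let ψ : K[X][Y] →+* F := eval₂RingHom (aeval u : K[X] →ₐ[K] F).toRingHom v
  have hψC : ∀ p : K[X], ψ (C p) = aeval u p := by
    intro p
    change eval₂ _ _ _ = _
    rw [eval₂_C]
    rfl
  have hψY : ψ Y = v := by
    change eval₂ _ _ _ = _
    rw [eval₂_X]
  have hth : ∀ i : Fin (n + 2), ψ (th ρ K i.1) = a3⁻¹ * a i := by
    intro i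
    unfold th
    by_cases h0 : i.1 = 0
    · rw [if_pos h0, map_mul, hψC, hψY, aeval_X]
      have h1 := h03 i ⟨1, i1⟩ ⟨2, i2⟩ ⟨3, i3⟩ h0 rfl rfl rfl
      rw [← hπ, map_sub, map_mul, map_mul] at h1
      have h2 : a i * a3 = a ⟨1, i1⟩ * a ⟨2, i2⟩ := sub_eq_zero.1 h1
      calc a3⁻¹ * a ⟨1, i1⟩ * (a3⁻¹ * a ⟨2, i2⟩)
          = a3⁻¹ * a3⁻¹ * (a ⟨1, i1⟩ * a ⟨2, i2⟩) := by ring
        _ = a3⁻¹ * a i * (a3⁻¹ * a3) := by rw [← h2]; ring
        _ = a3⁻¹ * a i := by rw [inv_mul_cancel₀ ha30, mul_one]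
    rw [if_neg h0]
    by_cases h1 : i.1 = 1
    · rw [if_pos h1, hψC, aeval_X]
      have : i = ⟨1, i1⟩ := Fin.ext h1
      rw [this]
    rw [if_neg h1]
    by_cases h2 : i.1 = 2
    · rw [if_pos h2, hψY]
      have : i = ⟨2, i2⟩ := Fin.ext h2
      rw [this]
    rw [if_neg h2]
    by_cases h3' : i.1 = 3
    · rw [if_pos h3', map_one]
      have : i = ⟨3, i3⟩ := Fin.ext h3'
      rw [this, ← ha3, inv_mul_cancel₀ ha30]
    rw [if_neg h3']
    by_cases h4 : i.1 = 4 ∧ ρ = 1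
    · rw [if_pos h4, hψC, map_pow, aeval_X]
      have h5 := h43 h4.2 ⟨1, i1⟩ ⟨3, i3⟩ i rfl rfl h4.1
      rw [← hπ, map_sub, map_mul, map_pow] at h5
      have h6 : a i * a3 = a ⟨1, i1⟩ ^ 2 := sub_eq_zero.1 h5
      calc (a3⁻¹ * a ⟨1, i1⟩) ^ 2 = a3⁻¹ * a3⁻¹ * a ⟨1, i1⟩ ^ 2 := by ring
        _ = a3⁻¹ * a i * (a3⁻¹ * a3) := by rw [← h6]; ring
        _ = a3⁻¹ * a i := by rw [inv_mul_cancel₀ ha30, mul_one]
    · rw [if_neg h4, map_zero]
      have h5 : 4 + ρ ≤ i.1 := by
        by_contra hlt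
        have h6 : i.1 = 4 ∧ ρ = 1 := by omega
        exact h4 h6
      have h6 := (hπ _).2 (hlin i h5)
      change (0 : F) = a3⁻¹ * π (MvPolynomial.X i)
      rw [h6, mul_zero]
  have hres : ∀ h : MvPolynomial (Fin (n + 2)) K,
      ψ (res ρ n K h) = MvPolynomial.aeval (fun i => a3⁻¹ * a i) h := by
    intro h
    have : ψ.comp (res ρ n K).toRingHom =
        (MvPolynomial.aeval (fun i => a3⁻¹ * a i) : _ →ₐ[K] F).toRingHom := by
      apply MvPolynomial.ringHom_ext
      · intro c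
        change ψ (res ρ n K (MvPolynomial.C c)) = MvPolynomial.aeval _ (MvPolynomial.C c)
        rw [MvPolynomial.aeval_C]
        have : res ρ n K (MvPolynomial.C c) = C (C c) := by
          unfold res
          rw [MvPolynomial.aeval_C]
          rfl
        rw [this, hψC, aeval_C]
      · intro i
        change ψ (res ρ n K (MvPolynomial.X i)) = MvPolynomial.aeval _ (MvPolynomial.X i)
        rw [MvPolynomial.aeval_X]
        unfold res
        rw [MvPolynomial.aeval_X, hth]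
    exact congrArg (fun g => g h) this
  refine ⟨RingHom.ker ψ, RingHom.ker_isPrime ψ, ?_⟩
  intro t h hh
  rw [RingHom.mem_ker, hres, aeval_scale hh, hπa, ← hπ]
  constructor
  · intro h0; rw [h0, mul_zero]
  · intro h0
    rcases mul_eq_zero.1 h0 with h0 | h0
    · exact absurd h0 (pow_ne_zero _ (inv_ne_zero ha30))
    · exact h0

end Pool.Agent.LDP.H47
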