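import Pool.Agent.Helper47_LDP.Main0

/-! MAIN1. -/

namespace Pool.Agent.LDP.H47

open Polynomial
open scoped Polynomial.Bivariate

theorem lin_coeff {K : Type} [Field K] (a₁ a₂ a₃ : K) (j : ℕ) :
    (C (C a₃ - C a₁ * X) + C (C a₂) * Y : K[X][Y]).coeff j =
      if j = 0 then (C a₃ - C a₁ * X) else if j = 1 then C a₂ else 0 := by
  rw [coeff_add, coeff_C, coeff_C_mul, coeff_X]
  by_cases h0 : j = 0
  · rw [if_pos h0, if_pos h0, if_neg (by omega), mul_zero, add_zero]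
  · rw [if_neg h0, if_neg h0, zero_add]
    by_cases h1 : j = 1
    · rw [if_pos h1, if_pos h1.symm, mul_one]
    · rw [if_neg h1, if_neg (fun h => h1 h.symm), mul_zero]

theorem lin_mem {K : Type} [Field K] (a₁ a₂ a₃ : K) :
    (C (C a₃ - C a₁ * X) + C (C a₂) * Y : K[X][Y]) ∈ V 1 K 1 1 := by
  intro i j hij
  rw [lin_coeff] at hij
  by_cases h0 : j = 0
  · rw [if_pos h0, coeff_sub, coeff_C, coeff_C_mul, coeff_X] at hij
    refine ⟨by omega, ?_⟩
    by_contra hlt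
    apply hij
    rw [if_neg (by omega), if_neg (by omega), mul_zero, sub_zero]
  · rw [if_neg h0] at hij
    by_cases h1 : j = 1
    · rw [if_pos h1, coeff_C] at hij
      refine ⟨by omega, ?_⟩
      by_contra hlt
      apply hij
      rw [if_neg (by omega)]
    · rw [if_neg h1, coeff_zero] at hij
      exact absurd rfl hij

theorem lin_eq_zero {K : Type} [Field K] {a₁ a₂ a₃ : K}
    (h : (C (C a₃ - C a₁ * X) + C (C a₂) * Y : K[X][Y]) = 0) : a₁ = 0 ∧ a₂ = 0 ∧ a₃ = 0 := by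
  have h0 := lin_coeff a₁ a₂ a₃ 0
  have h1 := lin_coeff a₁ a₂ a₃ 1
  rw [h, coeff_zero, if_pos rfl] at h0
  rw [h, coeff_zero, if_neg one_ne_zero, if_pos rfl] at h1
  have e0 := congrArg (fun p => coeff p 0) h0
  have e1 := congrArg (fun p => coeff p 1) h0
  have e2 := congrArg (fun p => coeff p 0) h1
  simp only [coeff_zero, coeff_sub, coeff_C_zero, coeff_C_mul, coeff_X_zero, mul_zero,
    sub_zero] at e0 e2
  simp only [coeff_zero, coeff_sub, coeff_C_mul, coeff_X_one, mul_one, coeff_C,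
    if_neg one_ne_zero, zero_sub] at e1
  refine ⟨?_, e2.symm, e0.symm⟩
  exact neg_eq_zero.1 e1.symm

/-- MAIN1 -/
theorem main1 (hSpe : SpeStmt) (hSem : SemStmt) (hGen : GenStmt) (hRir : RirStmt)
    (hPts : PtsStmt) (hIdl : IdlStmt) (hHil : HilStmt) (hCur : CurStmt) (hChi : ChiStmt)
    (hPri : PriStmt) (hRe2 : Re2Stmt) (hTwo : TwoStmt) (hCon : ConStmt) : Main1 := by
  intro n k hn hk
  have hpar : Par 1 2 (k - 1) := Or.inr ⟨rfl, rfl, by omega⟩
  have hkm : k - 1 + 2 - 1 = k := by omega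
  obtain ⟨hgood, hsep, hhom, E, _, _, s, t, P, hfin, hrank, hs, hgen, hnum, hev, hP, hmem, hFP⟩ :=
    setup hSpe hSem hGen hRir hPts hIdl 1 n 2 (k - 1) hpar (by omega)
  rw [hkm] at hP hrank
  refine ⟨P, by rw [mul_comm]; exact hP, hFP, ?_⟩
  intro Q hQ hQP
  have hk1 : 1 ≤ k := by omega
  by_contra hFQ
  have htwo := hTwo n (k - 1) E s hn (by omega) hgen hs
  have hquad : ∀ q : MvPolynomial (Fin (n + 2)) (KK n 2),
      q ∈ MvPolynomial.homogeneousSubmodule (Fin (n + 2)) (KK n 2) 2 → q ∈ P →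
      ∃ a : KK n 2, q - MvPolynomial.C a * FK n 2 ∈ Q := by
    intro q hq hqP
    by_cases hqQ : q ∈ Q
    · exact ⟨0, by rw [map_zero, zero_mul, sub_zero]; exact hqQ⟩
    · obtain ⟨hQ1, hQ2, c, T, hT⟩ := hQ
      obtain ⟨hP1, hP2, T', hT'⟩ := hP
      exact hCon 1 n k (max T T') c (KK n 2) E s t P Q (FK n 2) q le_rfl (by omega) hk1 hrank
        hgen htwo hP2 (fun u hu => hT' u (le_trans (le_max_right _ _) hu)) hmem hQ1 hQ2 hQP
        (fun u hu => hT u (le_trans (le_max_left _ _) hu)) hhom hFP hFQ hq hqP hqQ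
  have hQpr := hQ.1
  -- the coordinates
  obtain ⟨i0, h0⟩ : ∃ i : Fin (n + 2), i.1 = 0 := ⟨⟨0, by omega⟩, rfl⟩
  obtain ⟨i1, h1⟩ : ∃ i : Fin (n + 2), i.1 = 1 := ⟨⟨1, by omega⟩, rfl⟩
  obtain ⟨i2, h2⟩ : ∃ i : Fin (n + 2), i.1 = 2 := ⟨⟨2, by omega⟩, rfl⟩
  obtain ⟨i3, h3⟩ : ∃ i : Fin (n + 2), i.1 = 3 := ⟨⟨3, by omega⟩, rfl⟩
  obtain ⟨i4, h4⟩ : ∃ i : Fin (n + 2), i.1 = 4 := ⟨⟨4, by omega⟩, rfl⟩
  have hq1P : (MvPolynomial.X i0 * MvPolynomial.X i3 - MvPolynomial.X i1 * MvPolynomial.X i2 :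
      MvPolynomial (Fin (n + 2)) (KK n 2)) ∈ P := by
    rw [hmem 2 _ (q_homog i0 i3 i1 i2)]
    apply ev_res_eq_zero
    rw [map_sub, map_mul, map_mul, res_X, res_X, res_X, res_X, th_zero 1 _ h0, th_one 1 _ h1,
      th_two 1 _ h2, th_three 1 _ h3]
    ring
  have hq2P : (MvPolynomial.X i4 * MvPolynomial.X i3 - MvPolynomial.X i1 * MvPolynomial.X i1 :
      MvPolynomial (Fin (n + 2)) (KK n 2)) ∈ P := by
    rw [hmem 2 _ (q_homog i4 i3 i1 i1)]
    apply ev_res_eq_zero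
    rw [map_sub, map_mul, map_mul, res_X, res_X, res_X, th_four _ h4, th_one 1 _ h1,
      th_three 1 _ h3, map_pow]
    ring
  have hq3P : (MvPolynomial.X i0 * MvPolynomial.X i1 - MvPolynomial.X i2 * MvPolynomial.X i4 :
      MvPolynomial (Fin (n + 2)) (KK n 2)) ∈ P := by
    rw [hmem 2 _ (q_homog i0 i1 i2 i4)]
    apply ev_res_eq_zero
    rw [map_sub, map_mul, map_mul, res_X, res_X, res_X, res_X, th_four _ h4, th_one 1 _ h1,
      th_zero 1 _ h0, th_two 1 _ h2, map_pow]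
    ring
  obtain ⟨a₁, ha₁⟩ := hquad _ (q_homog i0 i3 i1 i2) hq1P
  obtain ⟨a₂, ha₂⟩ := hquad _ (q_homog i4 i3 i1 i1) hq2P
  obtain ⟨a₃, ha₃⟩ := hquad _ (q_homog i0 i1 i2 i4) hq3P
  have hsyz : (MvPolynomial.C a₃ * MvPolynomial.X i3 - MvPolynomial.C a₁ * MvPolynomial.X i1 +
      MvPolynomial.C a₂ * MvPolynomial.X i2) * FK n 2 ∈ Q := by
    have h5 := Q.neg_mem (Q.add_mem (Q.sub_mem (Q.mul_mem_left (MvPolynomial.X i3) ha₃)
      (Q.mul_mem_left (MvPolynomial.X i1) ha₁)) (Q.mul_mem_left (MvPolynomial.X i2) ha₂))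
    convert h5 using 1
    ring
  have hlin : (MvPolynomial.C a₃ * MvPolynomial.X i3 - MvPolynomial.C a₁ * MvPolynomial.X i1 +
      MvPolynomial.C a₂ * MvPolynomial.X i2 : MvPolynomial (Fin (n + 2)) (KK n 2)) ∈ Q :=
    (hQpr.mem_or_mem hsyz).resolve_right hFQ
  have hlinh : (MvPolynomial.C a₃ * MvPolynomial.X i3 - MvPolynomial.C a₁ * MvPolynomial.X i1 +
      MvPolynomial.C a₂ * MvPolynomial.X i2 : MvPolynomial (Fin (n + 2)) (KK n 2)) ∈
      MvPolynomial.homogeneousSubmodule (Fin (n + 2)) (KK n 2) 1 := by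
    have hC : ∀ (a : KK n 2) (i : Fin (n + 2)), (MvPolynomial.C a * MvPolynomial.X i :
        MvPolynomial (Fin (n + 2)) (KK n 2)) ∈
        MvPolynomial.homogeneousSubmodule (Fin (n + 2)) (KK n 2) 1 := by
      intro a i
      rw [← MvPolynomial.smul_eq_C_mul]
      exact Submodule.smul_mem _ _ (MvPolynomial.isHomogeneous_X _ i)
    exact Submodule.add_mem _ (Submodule.sub_mem _ (hC _ _) (hC _ _)) (hC _ _)
  have hres : res 1 n (KK n 2) (MvPolynomial.C a₃ * MvPolynomial.X i3 -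
      MvPolynomial.C a₁ * MvPolynomial.X i1 + MvPolynomial.C a₂ * MvPolynomial.X i2) =
      C (C a₃ - C a₁ * X) + C (C a₂) * Y := by
    have hC : ∀ a : KK n 2, res 1 n (KK n 2) (MvPolynomial.C a) = C (C a) := by
      intro a
      unfold res
      rw [MvPolynomial.aeval_C]
      rfl
    rw [map_add, map_sub, map_mul, map_mul, map_mul, hC, hC, hC, res_X, res_X, res_X,
      th_three 1 _ h3, th_one 1 _ h1, th_two 1 _ h2, map_sub, map_mul, mul_one]
  have hevl := (hmem 1 _ hlinh).1 (hQP hlin)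
  rw [hres] at hevl
  have hdvd : fK 1 n 2 ∣ (C (C a₃ - C a₁ * X) + C (C a₂) * Y : (KK n 2)[X][Y]) :=
    hsep 1 1 _ (by omega) (lin_mem a₁ a₂ a₃)
      ((hnum 1 _ (natDegree_of_mem_V (lin_mem a₁ a₂ a₃))).1 hevl)
  have hzero : (C (C a₃ - C a₁ * X) + C (C a₂) * Y : (KK n 2)[X][Y]) = 0 := by
    by_contra hne
    have h6 := natDegree_le_of_dvd hdvd hne
    have h7 : 2 ≤ (fK 1 n 2).natDegree := by
      apply le_natDegree_of_ne_zero
      intro h8
      have h9 := hgood.corner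
      rw [h8, coeff_zero] at h9
      exact zero_ne_one h9
    have h8 := natDegree_of_mem_V (lin_mem a₁ a₂ a₃)
    omega
  obtain ⟨rfl, rfl, rfl⟩ := lin_eq_zero hzero
  rw [map_zero, zero_mul, sub_zero] at ha₁ ha₂
  apply hFQ
  refine common hCur hChi hPri hRe2 1 n 2 (k - 1) hpar (by omega) (KK n 2) E (FK n 2) hhom
    hsep s t hnum hev P Q hmem (by rw [hkm]; exact hQ) hQP ?_ ?_ ?_
  · intro i hi
    have h1 : (MvPolynomial.X i : MvPolynomial (Fin (n + 2)) (KK n 2)) ∈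
        MvPolynomial.homogeneousSubmodule (Fin (n + 2)) (KK n 2) 1 :=
      MvPolynomial.isHomogeneous_X _ i
    refine low hHil hk1 hP hQ hQP (by omega) h1 ?_
    rw [hmem 1 _ h1]
    apply ev_res_eq_zero
    rw [res_X, th_large 1 le_rfl _ hi]
  · intro j0 j1 j2 j3 g0 g1 g2 g3
    obtain rfl : i0 = j0 := Fin.ext (by omega)
    obtain rfl : i1 = j1 := Fin.ext (by omega)
    obtain rfl : i2 = j2 := Fin.ext (by omega)
    obtain rfl : i3 = j3 := Fin.ext (by omega)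
    exact ha₁
  · intro _ j1 j3 j4 g1 g3 g4
    obtain rfl : i1 = j1 := Fin.ext (by omega)
    obtain rfl : i3 = j3 := Fin.ext (by omega)
    obtain rfl : i4 = j4 := Fin.ext (by omega)
    rw [pow_two]
    exact ha₂

end Pool.Agent.LDP.H47
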