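import Pool.Agent.Helper38_LDP.Stmts

/-! PTS: the point `P`. -/

namespace Pool.Agent.LDP.H47

open Polynomial
open scoped Polynomial.Bivariate

section

variable {K E : Type} [Field K] [Field E] [Algebra K E]

theorem ev_eq {s t : E} {b : ℕ} {G : K[X][Y]} (hG : G.natDegree ≤ b) :
    ev s t G = ∑ j ∈ Finset.range (b + 1), aeval s (G.coeff j) * t ^ j := by
  unfold ev
  have h1 := eval_eq_sum_range' (p := G.map (mapRingHom (algebraMap K E))) (n := b + 1)
    (lt_of_le_of_lt natDegree_map_le (Nat.lt_succ_of_le hG)) (C t)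
  rw [evalEval, h1, eval_finsetSum]
  refine Finset.sum_congr rfl fun j _ => ?_
  rw [eval_mul, eval_pow, eval_C, coeff_map, coe_mapRingHom, eval_map_algebraMap]

theorem aeval_num (m d b : ℕ) (f G : K[X][Y]) (s : E) :
    aeval s (num m d b f G) = ∑ j ∈ Finset.range (b + 1),
      aeval s (G.coeff j) * (-(aeval s (f.coeff 0))) ^ j * (aeval s (wP m d f)) ^ (b - j) := by
  unfold num
  rw [map_sum]
  refine Finset.sum_congr rfl fun j _ => ?_
  rw [map_mul, map_mul, map_pow, map_pow, map_neg]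

theorem num_ev {m d b : ℕ} {f G : K[X][Y]} {s : E} (hw : aeval s (wP m d f) ≠ 0)
    (hG : G.natDegree ≤ b) :
    aeval s (num m d b f G) =
      (aeval s (wP m d f)) ^ b * ev s (-(aeval s (f.coeff 0)) / aeval s (wP m d f)) G := by
  rw [aeval_num, ev_eq hG, Finset.mul_sum]
  refine Finset.sum_congr rfl fun j hj => ?_
  rw [Finset.mem_range] at hj
  have hj' : (aeval s (wP m d f)) ^ b = (aeval s (wP m d f)) ^ (b - j) *
      (aeval s (wP m d f)) ^ j := by rw [← pow_add]; congr 1; omega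
  rw [hj', div_pow]
  field_simp

end

theorem good_monic {ρ d : ℕ} {L : Type} [CommRing L] [Nontrivial L] {f : L[X][Y]}
    (h : Good ρ d f) : (f.coeff d).Monic ∧ (f.coeff d).natDegree = d := by
  have h1 : (f.coeff d).natDegree ≤ d := by
    rw [natDegree_le_iff_coeff_eq_zero]
    intro i hi
    by_contra hne
    have := h.mem i d hne
    have h2 := this.2
    rw [add_mul, one_mul] at h2
    omega
  have h3 : (f.coeff d).natDegree = d := natDegree_eq_of_le_of_coeff_ne_zero h1 (by
    rw [h.corner]; exact one_ne_zero)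
  refine ⟨?_, h3⟩
  rw [Monic, leadingCoeff, h3, h.corner]

theorem good_natDegree {ρ d : ℕ} {L : Type} [CommRing L] {f : L[X][Y]}
    (h : Good ρ d f) : f.natDegree ≤ d := by
  rw [natDegree_le_iff_coeff_eq_zero]
  intro j hj
  ext i
  rw [coeff_zero]
  by_contra hne
  have := (h.mem i j hne).1
  omega

theorem pts (hMon : MonStmt) (hNum : NumStmt) : PtsStmt := by
  intro ρ d m K _ f hpar hgood hirr
  obtain ⟨hmon, hdeg⟩ := hMon ρ d m K f hpar hgood
  have : Fact (Irreducible (RR m d f)) := ⟨hirr⟩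
  obtain ⟨hf1, hf2⟩ := good_monic hgood
  have hd : 2 ≤ d ∧ 3 ≤ m + d := by
    rcases hpar with ⟨_, h1, h2⟩ | ⟨_, h1, h2⟩ <;> omega
  have hw1 : (wP m d f).natDegree = m + d := by
    unfold wP
    rw [(monic_X_pow m).natDegree_mul hf1, natDegree_X_pow, hf2]
  have hw2 : (wP m d f).Monic := (monic_X_pow m).mul hf1
  let E := AdjoinRoot (RR m d f)
  let s : E := AdjoinRoot.root (RR m d f)
  have hs : ∀ p : K[X], aeval s p = AdjoinRoot.mk (RR m d f) p := fun p => AdjoinRoot.aeval_eq p
  have hw : aeval s (wP m d f) ≠ 0 := by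
    rw [hs, Ne, AdjoinRoot.mk_eq_zero]
    intro hdvd
    have := natDegree_le_of_dvd hdvd hw2.ne_zero
    rw [hdeg, hw1] at this
    obtain ⟨h1, h2⟩ := hd
    have h3 : 2 * (m + d - 1) ≤ d * (m + d - 1) := Nat.mul_le_mul_right _ h1
    omega
  have key : ∀ (b : ℕ) (G : K[X][Y]), G.natDegree ≤ b →
      (ev s (-(aeval s (f.coeff 0)) / aeval s (wP m d f)) G = 0 ↔
        RR m d f ∣ num m d b f G) := by
    intro b G hG
    rw [← AdjoinRoot.mk_eq_zero, ← hs, num_ev hw hG]
    constructor
    · intro h; rw [h, mul_zero]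
    · intro h
      rcases mul_eq_zero.1 h with h | h
      · exact absurd h (pow_ne_zero _ hw)
      · exact h
  refine ⟨E, inferInstance, inferInstance, s, -(aeval s (f.coeff 0)) / aeval s (wP m d f),
    ?_, ?_, ?_, ?_, key, ?_⟩
  · exact (AdjoinRoot.powerBasis hmon.ne_zero).finite
  · rw [(AdjoinRoot.powerBasis hmon.ne_zero).finrank, AdjoinRoot.powerBasis_dim, hdeg]
  · rw [hs, AdjoinRoot.mk_self]
  · intro e
    obtain ⟨p, hp⟩ := AdjoinRoot.mk_surjective e
    exact ⟨p, by rw [hs, hp]⟩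
  · rw [key d f (good_natDegree hgood)]
    have := hNum m d 0 K f 1 (by omega) (good_natDegree hgood) (by simp)
    rw [zero_add, mul_one] at this
    rw [this]
    exact ⟨f.coeff 0 * f.coeff d * num m d 0 f 1, by ring⟩

end Pool.Agent.LDP.H47
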